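import Pool.Agent.W2helper83.BT.Defs2
import Pool.Agent.T6.H62.PP.Val

/-!
# Project BT, second part, piece TAILZ (helper83)

For coprime `a ≥ 5`, `b ≥ 3` there are only finitely many `s` with `u ^ a + s ^ b = 1` for some `u`:
the factors `1 - η s`, `η ^ b = 1`, are `a`-th powers up to finitely many factors, and three of them
are linearly dependent, which gives points of the Fermat curve of degree `a`.
-/

set_option autoImplicit false

namespace Pool.Agent.W2helper15.BT

open IsDedekindDomain NumberField Polynomial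
open Pool.Agent.W2helper83.BT
open Pool.Agent.T6.H62.PP.ModVal

section

variable {L : Type} [Field L] [NumberField L] (v : HeightOneSpectrum (𝓞 L))

/-- the orders of the factors are multiples of `a` -/
theorem val_pow {a b : ℕ} (ha : 1 < a) (hb : 0 < b) (hab : Nat.Coprime a b)
    (hv : ¬ ((b : ℤ) : 𝓞 L) ∈ v.asIdeal) {ζ u s : L} (hζ : IsPrimitiveRoot ζ b)
    (hs : u ^ a + s ^ b = 1) (h0 : ∀ η ∈ nthRootsFinset b (1 : L), 1 - η * s ≠ 0) (η : L)
    (hη : η ∈ nthRootsFinset b (1 : L)) :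
    ∃ c : L, c ≠ 0 ∧ v.valuation L (1 - η * s) = v.valuation L c ^ a := by
  classical
  have hroot : ∀ θ ∈ nthRootsFinset b (1 : L), θ ^ b = 1 := by
    intro θ hθ
    rwa [mem_nthRootsFinset hb] at hθ
  have wη : ∀ θ ∈ nthRootsFinset b (1 : L), v.valuation L θ = 1 := fun θ hθ =>
    val_root v hb (hroot θ hθ)
  have wx : ∀ θ ∈ nthRootsFinset b (1 : L), v.valuation L (θ * s) = v.valuation L s := by
    intro θ hθ
    rw [map_mul, wη θ hθ, one_mul]
  have hprod : ∏ θ ∈ nthRootsFinset b (1 : L), (1 - θ * s) = u ^ a := by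
    rw [← hζ.pow_sub_pow_eq_prod_sub_mul 1 s hb, one_pow, ← hs]
    ring
  have hu0 : u ≠ 0 := by
    intro h
    rw [h, zero_pow (by omega)] at hprod
    exact Finset.prod_ne_zero_iff.2 h0 hprod
  rcases le_or_gt (v.valuation L s) 1 with hx | hx
  · have hle : ∀ θ ∈ nthRootsFinset b (1 : L), v.valuation L (1 - θ * s) ≤ 1 := by
      intro θ hθ
      refine le_trans (Valuation.map_sub _ _ _) (max_le (by rw [map_one]) ?_)
      rw [wx θ hθ]
      exact hx
    rcases (hle η hη).lt_or_eq with h1 | h1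
    · refine ⟨u, hu0, ?_⟩
      rw [← map_pow, ← hprod, map_prod, ← Finset.mul_prod_erase _ _ hη]
      rw [Finset.prod_eq_one, mul_one]
      intro θ hθ
      rw [Finset.mem_erase] at hθ
      refine le_antisymm (hle θ hθ.2) ?_
      by_contra hlt
      rw [not_le] at hlt
      have hηx : v.valuation L s = 1 := by
        rw [← wx η hη]
        have e : η * s = 1 - (1 - η * s) := by ring
        rw [e]
        have h3 := Valuation.map_sub_eq_of_lt_right (v.valuation L)
          (x := 1 - η * s) (y := 1) (by rw [map_one]; exact h1)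
        rw [Valuation.map_sub_swap, h3, map_one]
      have hη0 : η ≠ 0 := by
        intro h
        have := hroot η hη
        rw [h, zero_pow hb.ne'] at this
        exact zero_ne_one this
      have h4 : 1 ≤ v.valuation L (η - θ) := by
        have e : η - θ = η * (1 - θ / η) := by field_simp
        rw [e, map_mul, wη η hη, one_mul]
        refine val_one_sub v hb hv ?_ ?_
        · rw [div_pow, hroot θ hθ.2, hroot η hη, div_one]
        · intro h5
          rw [div_eq_one_iff_eq hη0] at h5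
          exact hθ.1 h5
      have h5 : v.valuation L ((η - θ) * s) < 1 := by
        have e : (η - θ) * s = (1 - θ * s) - (1 - η * s) := by ring
        rw [e]
        exact lt_of_le_of_lt (Valuation.map_sub _ _ _) (max_lt hlt h1)
      rw [map_mul, hηx, mul_one] at h5
      exact absurd h5 (not_lt.2 h4)
    · exact ⟨1, one_ne_zero, by rw [h1, map_one, one_pow]⟩
  · have heq : ∀ θ ∈ nthRootsFinset b (1 : L), v.valuation L (1 - θ * s) = v.valuation L s := by
      intro θ hθ
      rw [← wx θ hθ]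
      refine Valuation.map_sub_eq_of_lt_right (v.valuation L) ?_
      rw [map_one, wx θ hθ]
      exact hx
    have hx0 : s ≠ 0 := by
      rintro rfl
      rw [map_zero] at hx
      exact absurd hx (not_lt.2 zero_le_one)
    have hc : (nthRootsFinset b (1 : L)).card = b := hζ.card_nthRootsFinset
    have hp : v.valuation L s ^ b = v.valuation L u ^ a := by
      rw [← map_pow _ u, ← hprod, map_prod, Finset.prod_congr rfl heq, Finset.prod_const, hc]
    -- `b i = a j + 1`
    obtain ⟨i, -, hi⟩ := Nat.exists_mul_mod_eq_one_of_coprime hab.symm ha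
    obtain ⟨j, hj⟩ : ∃ j : ℕ, b * i = a * j + 1 :=
      ⟨b * i / a, by have := Nat.div_add_mod (b * i) a; rw [hi] at this; exact this.symm⟩
    refine ⟨u ^ i / s ^ j, div_ne_zero (pow_ne_zero _ hu0) (pow_ne_zero _ hx0), ?_⟩
    have hw0 : v.valuation L s ≠ 0 := (Valuation.ne_zero_iff _).2 hx0
    rw [heq η hη, map_div₀, map_pow, map_pow, div_pow, eq_div_iff (pow_ne_zero _ (pow_ne_zero _ hw0)),
      ← pow_mul, ← pow_mul, mul_comm i a, pow_mul (v.valuation L u) a i, ← hp, ← pow_mul, hj,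
      ← pow_succ', mul_comm j a]

end

theorem fin_pow {K : Type} [Field K] {m : ℕ} (hm : 0 < m) (a : K) : {x : K | x ^ m = a}.Finite := by
  classical
  refine ((nthRoots m a).toFinset.finite_toSet).subset fun x hx => ?_
  rw [Finset.mem_coe, Multiset.mem_toFinset, mem_nthRoots hm]
  exact hx

/-- finitely many `s`, with the roots of unity in the field -/
theorem core_L {a b : ℕ} (ha : 5 ≤ a) (hb : 3 ≤ b) (hab : Nat.Coprime a b) (hS : SEL a)
    (hF : FERM a) (hR : ROOTS) {L : Type} [Field L] [NumberField L] {ζ : L}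
    (hζ : IsPrimitiveRoot ζ b) : {s : L | ∃ u : L, u ^ a + s ^ b = 1}.Finite := by
  classical
  have hb0 : 0 < b := by omega
  have hζ0 : ζ ≠ 0 := hζ.ne_zero hb0.ne'
  have hfin : {v : HeightOneSpectrum (𝓞 L) | ((b : ℤ) : 𝓞 L) ∈ v.asIdeal}.Finite := by
    have hI : Ideal.span {((b : ℤ) : 𝓞 L)} ≠ ⊥ := by
      rw [Ne, Ideal.span_singleton_eq_bot]
      exact_mod_cast hb0.ne'
    refine (Ideal.finite_factors hI).subset (fun v hv => ?_)
    exact Ideal.dvd_span_singleton.2 hv
  obtain ⟨T, hT0, hT⟩ := hS L _ hfin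
  -- the three roots of unity
  have n12 : (1 : L) - ζ ≠ 0 := by
    intro h
    have h1 : ζ ^ 1 = ζ ^ 0 := by rw [pow_one, pow_zero]; exact (sub_eq_zero.1 h).symm
    have := hζ.pow_inj (by omega) (by omega) h1
    omega
  have n13 : (1 : L) - ζ ^ 2 ≠ 0 := by
    intro h
    have h1 : ζ ^ 2 = ζ ^ 0 := by rw [pow_zero]; exact (sub_eq_zero.1 h).symm
    have := hζ.pow_inj (by omega) (by omega) h1
    omega
  have n23 : ζ - ζ ^ 2 ≠ 0 := by
    intro h
    have h1 : ζ ^ 1 = ζ ^ 2 := by rw [pow_one]; exact sub_eq_zero.1 h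
    have := hζ.pow_inj (by omega) (by omega) h1
    omega
  -- the coefficients
  let A : L := -(ζ - ζ ^ 2) / (1 - ζ)
  let B : L := (1 - ζ ^ 2) / (1 - ζ)
  let T2 : Finset L := ((T ×ˢ T).image fun p => A * (p.1 / p.2)) ∪
    ((T ×ˢ T).image fun p => B * (p.1 / p.2))
  obtain ⟨M, _, _, _, hM⟩ := hR L T2 a (by omega)
  have hfermat := hF M
  -- finitely many values of the ratio
  have hvals : {ρ : L | ∃ p : M × M, p.1 ^ a + p.2 ^ a = 1 ∧ algebraMap L M (A * ρ) = p.1 ^ a}.Finite := by
    have h1 : ((fun p : M × M => p.1 ^ a) '' {p : M × M | p.1 ^ a + p.2 ^ a = 1}).Finite :=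
      hfermat.image _
    have hA : A ≠ 0 := div_ne_zero (neg_ne_zero.2 n23) n12
    have hinj : Function.Injective fun ρ : L => algebraMap L M (A * ρ) := by
      intro x y h
      exact mul_left_cancel₀ hA ((algebraMap L M).injective h)
    refine (h1.preimage hinj.injOn).subset ?_
    rintro ρ ⟨p, hp1, hp2⟩
    exact ⟨p, hp1, hp2.symm⟩
  -- the map to the ratio is injective
  let g : L → L := fun s => (1 - s) / (1 - ζ ^ 2 * s)
  have hg : Set.InjOn g {s : L | 1 - ζ ^ 2 * s ≠ 0} := by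
    intro x hx y hy h
    simp only [Set.mem_ofPred_eq] at hx hy
    simp only [g] at h
    rw [div_eq_div_iff hx hy] at h
    have h2 : (1 - ζ ^ 2) * (x - y) = 0 := by linear_combination -h
    rcases mul_eq_zero.1 h2 with h3 | h3
    · exact absurd h3 n13
    · exact sub_eq_zero.1 h3
  have hgood : {s : L | 1 - ζ ^ 2 * s ≠ 0 ∧ g s ∈ {ρ : L | ∃ p : M × M, p.1 ^ a + p.2 ^ a = 1 ∧
      algebraMap L M (A * ρ) = p.1 ^ a}}.Finite :=
    Set.Finite.of_injOn (f := g) (fun s hs => hs.2) (hg.mono fun s hs => hs.1) hvals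
  refine (hgood.union (fin_pow hb0 (1 : L))).subset ?_
  rintro s ⟨u, hs⟩
  by_cases h0 : ∀ η ∈ nthRootsFinset b (1 : L), 1 - η * s ≠ 0
  · left
    have key : ∀ i : ℕ, ∃ t ∈ T, ∃ c : L, c ≠ 0 ∧ 1 - ζ ^ i * s = t * c ^ a := by
      intro i
      have hηi : ζ ^ i ∈ nthRootsFinset b (1 : L) := by
        rw [mem_nthRootsFinset hb0, ← pow_mul, mul_comm, pow_mul, hζ.pow_eq_one, one_pow]
      have hne := h0 _ hηi
      obtain ⟨t, ht, c, hc, hβ⟩ := hT (Units.mk0 _ hne) (by
        intro v hv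
        obtain ⟨c, hc, hval⟩ := val_pow v (by omega) hb0 hab hv hζ hs h0 _ hηi
        have e1 : v.valuationOfNeZero (Units.mk0 _ hne) =
            v.valuationOfNeZero (Units.mk0 c hc) ^ a := by
          have h1 := v.valuationOfNeZero_eq (K := L) (Units.mk0 _ hne)
          have h2 := v.valuationOfNeZero_eq (K := L) (Units.mk0 c hc)
          rw [Units.val_mk0, hval] at h1
          rw [Units.val_mk0] at h2
          rw [← h2, ← WithZero.coe_pow] at h1
          exact WithZero.coe_inj.1 h1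
        rw [e1, toAdd_pow]
        exact ⟨Multiplicative.toAdd (v.valuationOfNeZero (Units.mk0 c hc)), by simp⟩)
      rw [Units.val_mk0] at hβ
      exact ⟨t, ht, c, hc, hβ⟩
    obtain ⟨t0, ht0, c0, hc0, h1⟩ := key 0
    obtain ⟨t1, ht1, c1, hc1, h2⟩ := key 1
    obtain ⟨t2, ht2, c2, hc2, h3⟩ := key 2
    rw [pow_zero, one_mul] at h1
    rw [pow_one] at h2
    have ht2' := hT0 t2 ht2
    have hne2 : 1 - ζ ^ 2 * s ≠ 0 := by
      rw [h3]
      exact mul_ne_zero ht2' (pow_ne_zero _ hc2)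
    obtain ⟨θ, hθ⟩ := hM (A * (t0 / t2)) (Finset.mem_union_left _ (Finset.mem_image.2
      ⟨(t0, t2), Finset.mem_product.2 ⟨ht0, ht2⟩, rfl⟩))
    obtain ⟨φ, hφ⟩ := hM (B * (t1 / t2)) (Finset.mem_union_right _ (Finset.mem_image.2
      ⟨(t1, t2), Finset.mem_product.2 ⟨ht1, ht2⟩, rfl⟩))
    have e1 : (θ * algebraMap L M (c0 / c2)) ^ a = algebraMap L M (A * g s) := by
      rw [mul_pow, hθ, ← map_pow, ← map_mul]
      congr 1
      simp only [g]
      rw [h1, h3, div_pow]
      have := pow_ne_zero a hc2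
      field_simp
    have e2 : (φ * algebraMap L M (c1 / c2)) ^ a =
        algebraMap L M (B * ((1 - ζ * s) / (1 - ζ ^ 2 * s))) := by
      rw [mul_pow, hφ, ← map_pow, ← map_mul]
      congr 1
      rw [h2, h3, div_pow]
      have := pow_ne_zero a hc2
      field_simp
    refine ⟨hne2, (θ * algebraMap L M (c0 / c2), φ * algebraMap L M (c1 / c2)), ?_, e1.symm⟩
    simp only
    rw [e1, e2, ← map_add]
    have e3 : A * g s + B * ((1 - ζ * s) / (1 - ζ ^ 2 * s)) = 1 := by
      simp only [A, B, g]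
      field_simp
      ring
    rw [e3, map_one]
  · right
    push Not at h0
    obtain ⟨η, hη, hz⟩ := h0
    rw [mem_nthRootsFinset hb0] at hη
    have h1 : η * s = 1 := (sub_eq_zero.1 hz).symm
    have h2 : (η * s) ^ b = 1 := by rw [h1, one_pow]
    rw [mul_pow, hη, one_mul] at h2
    exact h2

/-- finitely many `s` -/
theorem core {a b : ℕ} (ha : 5 ≤ a) (hb : 3 ≤ b) (hab : Nat.Coprime a b) (hS : SEL a)
    (hF : FERM a) (hR : ROOTS) (K : Type) [Field K] [NumberField K] :
    {s : K | ∃ u : K, u ^ a + s ^ b = 1}.Finite := by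
  have : NeZero b := ⟨by omega⟩
  let L := CyclotomicField b K
  have : NumberField L := inferInstance
  have hζ := IsCyclotomicExtension.zeta_spec b K L
  have h := core_L ha hb hab hS hF hR hζ
  refine (h.preimage (f := algebraMap K L) (algebraMap K L).injective.injOn).subset ?_
  rintro s ⟨u, hs⟩
  exact ⟨algebraMap K L u, by rw [← map_pow, ← map_pow, ← map_add, hs, map_one]⟩

/-- finitely many `s`, with a coefficient -/
theorem core_k {d m : ℕ} (hd : 3 ≤ d) (hm : 3 ≤ m) (h5 : 5 ≤ d ∨ 5 ≤ m) (hdm : Nat.Coprime d m)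
    (hS : ∀ m, 0 < m → SEL m) (hF5 : ∀ m, 5 ≤ m → FERM m) (hR : ROOTS) (K : Type) [Field K]
    [NumberField K] (k : K) (hk : k ≠ 0) : {s : K | ∃ u : K, u ^ d + k * s ^ m = 1}.Finite := by
  classical
  obtain ⟨L, _, _, _, hL⟩ := hR K {k} m (by omega)
  obtain ⟨θ, hθ⟩ := hL k (Finset.mem_singleton_self _)
  have hk' : algebraMap K L k ≠ 0 := by
    rwa [Ne, map_eq_zero]
  have hθ0 : θ ≠ 0 := by
    rintro rfl
    rw [zero_pow (by omega)] at hθ
    exact hk' hθ.symm
  have hinj : Function.Injective fun s : K => θ * algebraMap K L s := fun x y h =>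
    (algebraMap K L).injective (mul_left_cancel₀ hθ0 h)
  rcases h5 with h5 | h5
  · have h := core h5 hm hdm (hS d (by omega)) (hF5 d h5) hR L
    refine (h.preimage hinj.injOn).subset ?_
    rintro s ⟨u, hs⟩
    refine ⟨algebraMap K L u, ?_⟩
    rw [mul_pow, hθ, ← map_pow, ← map_pow, ← map_mul, ← map_add, hs, map_one]
  · have h := core h5 hd hdm.symm (hS m (by omega)) (hF5 m h5) hR L
    have h2 : (⋃ w ∈ {w : L | ∃ u : L, u ^ m + w ^ d = 1},
        {s : K | (θ * algebraMap K L s) ^ m = 1 - w ^ d}).Finite := by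
      refine h.biUnion fun w _ => ?_
      exact (fin_pow (by omega : 0 < m) (1 - w ^ d)).preimage hinj.injOn
    refine h2.subset ?_
    rintro s ⟨u, hs⟩
    have e : algebraMap K L u ^ d + (θ * algebraMap K L s) ^ m = 1 := by
      rw [mul_pow, hθ, ← map_pow, ← map_pow, ← map_mul, ← map_add, hs, map_one]
    simp only [Set.mem_iUnion]
    refine ⟨algebraMap K L u, ⟨θ * algebraMap K L s, by rw [add_comm]; exact e⟩, ?_⟩
    simp only [Set.mem_ofPred_eq]
    linear_combination e

theorem fin_zpow {K : Type} [Field K] {n : ℤ} (hn : n ≠ 0) (a : K) : {x : K | x ^ n = a}.Finite := by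
  rcases le_or_gt 0 n with h | h
  · obtain ⟨m, rfl⟩ := Int.eq_ofNat_of_zero_le h
    have hm : 0 < m := by
      rcases Nat.eq_zero_or_pos m with h1 | h1
      · subst h1; simp at hn
      · exact h1
    refine (fin_pow hm a).subset fun x hx => ?_
    simp only [Set.mem_ofPred_eq, zpow_natCast] at hx ⊢
    exact hx
  · obtain ⟨m, hm⟩ := Int.eq_ofNat_of_zero_le (by omega : 0 ≤ -n)
    have hn' : n = -(m : ℤ) := by omega
    subst hn'
    refine (fin_pow (by omega : 0 < m) a⁻¹).subset fun x hx => ?_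
    simp only [Set.mem_ofPred_eq, zpow_neg, zpow_natCast] at hx ⊢
    rw [← hx, inv_inv]

/-- Piece TAILZ. -/
theorem tailz (hR : ROOTS) (hS : ∀ m, 0 < m → SEL m) (hF5 : ∀ m, 5 ≤ m → FERM m) (e : ℤ)
    (he : 5 ≤ e ∨ e ≤ -4) : TAILZ e := by
  classical
  intro K _ _
  have he0 : e ≠ 0 := by omega
  have he1 : e - 1 ≠ 0 := by omega
  have hd0 : 0 < e.natAbs := by omega
  -- the fixed points `y` for a given root of unity `ζ`
  let Q : K → Set K := fun ζ => {y : K | y ^ (e - 1) = 1 - ζ ∨
    (y ≠ 0 ∧ ∃ u : K, u ^ e = 1 - (1 - ζ) * y ^ (1 - e))}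
  have hQ : ∀ ζ : K, ζ ≠ 1 → (Q ζ).Finite := by
    intro ζ hζ
    have hk : 1 - ζ ≠ 0 := sub_ne_zero.2 hζ.symm
    have h2 : {y : K | y ≠ 0 ∧ ∃ u : K, u ^ e = 1 - (1 - ζ) * y ^ (1 - e)}.Finite := by
      rcases he with he | he
      · obtain ⟨d, rfl⟩ : ∃ d : ℕ, e = d := ⟨e.toNat, by omega⟩
        obtain ⟨m, rfl⟩ : ∃ m : ℕ, d = m + 1 := ⟨d - 1, by omega⟩
        have h := core_k (d := m + 1) (m := m) (by omega) (by omega) (Or.inl (by omega))
          (by simp) hS hF5 hR K (1 - ζ) hk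
        refine (h.preimage (f := fun y : K => y⁻¹) inv_injective.injOn).subset ?_
        rintro y ⟨hy, u, hu⟩
        refine ⟨u, ?_⟩
        have e1 : (1 : ℤ) - ((m + 1 : ℕ) : ℤ) = -(m : ℤ) := by push_cast; ring
        rw [e1, zpow_neg, zpow_natCast, zpow_natCast] at hu
        rw [hu, inv_pow]
        ring
      · obtain ⟨d, hd⟩ : ∃ d : ℕ, e = -(d : ℤ) := ⟨(-e).toNat, by omega⟩
        subst hd
        have h := core_k (d := d) (m := d + 1) (by omega) (by omega) (Or.inr (by omega))
          (by simp) hS hF5 hR K (1 - ζ) hk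
        refine h.subset ?_
        rintro y ⟨hy, u, hu⟩
        refine ⟨u⁻¹, ?_⟩
        have e1 : (1 : ℤ) - -(d : ℤ) = ((d + 1 : ℕ) : ℤ) := by push_cast; ring
        rw [e1, zpow_neg, zpow_natCast, zpow_natCast] at hu
        rw [inv_pow, hu]
        ring
    refine ((fin_zpow he1 (1 - ζ)).union h2).subset ?_
    rintro y (hy | hy)
    · exact Or.inl hy
    · exact Or.inr hy
  have hζfin : {ζ : K | ζ ^ e.natAbs = 1 ∧ ζ ≠ 1}.Finite :=
    (fin_pow hd0 (1 : K)).subset fun ζ hζ => hζ.1
  have hall := (hζfin.biUnion fun ζ hζ => hQ ζ hζ.2).image fun y : K => y - y ^ e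
  refine hall.subset ?_
  rintro c ⟨y, z, x, hy, hz, hzy, hx⟩
  unfold fz at hy hx
  have hy0 : y ≠ 0 := by
    rintro rfl
    rw [zero_zpow _ he0] at hz
    exact hzy (zpow_eq_zero_iff he0 |>.1 hz)
  have hζ : (z / y) ^ e = 1 := by
    rw [div_zpow, hz, div_self (zpow_ne_zero _ hy0)]
  have hζ1 : z / y ≠ 1 := by
    intro h
    exact hzy ((div_eq_one_iff_eq hy0).1 h)
  have hζd : (z / y) ^ e.natAbs = 1 := by
    rcases Int.natAbs_eq e with h | h
    · rw [h, zpow_natCast] at hζ
      exact hζ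
    · rw [h, zpow_neg, zpow_natCast, inv_eq_one] at hζ
      exact hζ
  refine ⟨y, ?_, ?_⟩
  · simp only [Set.mem_iUnion]
    refine ⟨z / y, ⟨hζd, hζ1⟩, ?_⟩
    have hye : y ^ e = y ^ (e - 1) * y := by
      rw [← zpow_add_one₀ hy0]
      congr 1
      ring
    have hxe : x ^ e = y ^ e - (1 - z / y) * y := by
      have : (1 - z / y) * y = y - z := by field_simp
      rw [this]
      linear_combination hx - hy
    by_cases hx0 : x = 0
    · left
      rw [hx0, zero_zpow _ he0] at hxe
      have h1 : (y ^ (e - 1) - (1 - z / y)) * y = 0 := by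
        rw [sub_mul, ← hye]
        exact hxe.symm
      rcases mul_eq_zero.1 h1 with h2 | h2
      · exact sub_eq_zero.1 h2
      · exact absurd h2 hy0
    · right
      refine ⟨hy0, x / y, ?_⟩
      rw [div_zpow, hxe]
      have h1 : y ^ (1 - e) = y / y ^ e := by
        rw [zpow_sub₀ hy0, zpow_one]
      have h2 : y ^ e ≠ 0 := zpow_ne_zero _ hy0
      rw [h1]
      field_simp
  · simp only
    linear_combination -hy

end Pool.Agent.W2helper15.BT
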