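import Pool.Agent.W2helper83.BT.Defs6
import Pool.Agent.W2helper49.BT4.RatB

/-!
# Project BT, sixth part, piece RATM (helper83): the ratios of two periodic points
-/

set_option autoImplicit false

namespace Pool.Agent.W2helper15.BT

open IsDedekindDomain NumberField Polynomial
open Pool.Agent.W2helper83.BT
open Pool.Agent.W2helper73.BT (val_nat)
open Pool.Agent.W2helper49.BT4 (val_one_iff val_eq_iff)

section map

variable {K L : Type} [Field K] [Field L] (φ : K →+* L)

/-- the map on pairs -/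
def mp (P : K × K) : L × L := (φ P.1, φ P.2)

lemma map_FM (d : ℕ) (α β γ δ : K) (P : K × K) :
    mp φ (FM d α β γ δ P) = FM d (φ α) (φ β) (φ γ) (φ δ) (mp φ P) := by
  simp [mp, FM]

lemma map_FM_iter (d : ℕ) (α β γ δ : K) (n : ℕ) (P : K × K) :
    mp φ ((FM d α β γ δ)^[n] P) = (FM d (φ α) (φ β) (φ γ) (φ δ))^[n] (mp φ P) := by
  induction n generalizing P with
  | zero => rfl
  | succ n ih => rw [Function.iterate_succ_apply, Function.iterate_succ_apply, ih, map_FM]

lemma map_perM {d : ℕ} {α β γ δ x : K} (h : PerM d α β γ δ x) :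
    PerM d (φ α) (φ β) (φ γ) (φ δ) (φ x) := by
  obtain ⟨n, hn, t, ht, he⟩ := h
  refine ⟨n, hn, φ t, by rw [Ne, map_eq_zero]; exact ht, ?_⟩
  have h1 := map_FM_iter φ d α β γ δ n (x, 1)
  rw [he] at h1
  have h2 : mp φ ((x, 1) : K × K) = (φ x, 1) := by simp [mp]
  rw [h2] at h1
  rw [← h1]
  simp [mp]

end map

section prim

variable {K L : Type} [Field K] [NumberField K] [Field L] [NumberField L] [Algebra K L]
  {v : HeightOneSpectrum (𝓞 K)} {w : HeightOneSpectrum (𝓞 L)}

lemma one_of_one (h : ∀ x : K, w.valuation L (algebraMap K L x) ≤ 1 ↔ v.valuation K x ≤ 1)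
    {z : K} (hz : v.valuation K z = 1) : w.valuation L (algebraMap K L z) = 1 := by
  have hz0 : z ≠ 0 := by
    rintro rfl
    rw [map_zero] at hz
    exact zero_ne_one hz
  exact (val_one_iff h hz0).2 hz

lemma prim_map (h : ∀ x : K, w.valuation L (algebraMap K L x) ≤ 1 ↔ v.valuation K x ≤ 1)
    {d : ℕ} {α β γ δ : K} (hP : Prim (v.valuation K) d α β γ δ) :
    Prim (w.valuation L) d (algebraMap K L α) (algebraMap K L β) (algebraMap K L γ)
      (algebraMap K L δ) := by
  obtain ⟨⟨h1, h2, h3, h4⟩, h5, h6, h7⟩ := hP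
  refine ⟨⟨(h _).2 h1, (h _).2 h2, (h _).2 h3, (h _).2 h4⟩, h5.imp (one_of_one h) (one_of_one h),
    h6.imp (one_of_one h) (one_of_one h), ?_⟩
  rcases h7 with h7 | h7
  · left
    have := one_of_one h h7
    rwa [map_add, map_mul, map_pow, map_pow] at this
  · right
    have := one_of_one h h7
    rwa [map_add, map_mul, map_mul, map_pow, map_pow] at this

end prim

/-- **RATM** -/
theorem ratm : RATMStm := by
  classical
  intro hPL hLOC d l n hP hn hnd hl K _ _ S hS
  have : NeZero d := ⟨by omega⟩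
  let L := CyclotomicField d K
  have : NumberField L := inferInstance
  have hζ := IsCyclotomicExtension.zeta_spec d K L
  set ζ := IsCyclotomicExtension.zeta d K L with hζdef
  obtain ⟨T, hT, hTv⟩ := hPL K L S hS
  have hfin : {w : HeightOneSpectrum (𝓞 L) | ((d : ℤ) : 𝓞 L) ∈ w.asIdeal}.Finite := by
    have hI : Ideal.span {((d : ℤ) : 𝓞 L)} ≠ ⊥ := by
      rw [Ne, Ideal.span_singleton_eq_bot]
      have : d ≠ 0 := by omega
      exact_mod_cast this
    refine (Ideal.finite_factors hI).subset (fun v hv => ?_)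
    exact Ideal.dvd_span_singleton.2 hv
  have hζd := hζ.pow_eq_one
  let r : Fin n → L := fun i => ζ ^ ((i : ℕ) + 1)
  have hr : Function.Injective r := by
    intro i j h
    have h1 := hζ.pow_inj (by omega) (by omega) h
    exact Fin.ext (by omega)
  have hroot : ∀ i, r i ^ d = 1 := by
    intro i
    show (ζ ^ ((i : ℕ) + 1)) ^ d = 1
    rw [← pow_mul, mul_comm, pow_mul, hζd, one_pow]
  have hne1 : ∀ i, r i ≠ 1 := fun i => hζ.pow_ne_one_of_pos_of_lt (by omega) (by omega)
  have hinj := (algebraMap K L).injective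
  have hfin2 := (hP L _ (hfin.union hT) r hr).union (Set.finite_range r)
  refine ⟨_, hfin2.preimage (f := algebraMap K L) hinj.injOn, ?_⟩
  intro α β γ δ x y hD hC hx hy hxy hx0 hy0
  rw [Set.mem_preimage]
  set ρ := algebraMap K L (x / y) with hρ
  set X := algebraMap K L x with hX
  set Y := algebraMap K L y with hY
  have hX0 : X ≠ 0 := fun h => hx0 (hinj (by rw [← hX, h, map_zero]))
  have hY0 : Y ≠ 0 := fun h => hy0 (hinj (by rw [← hY, h, map_zero]))
  have hXY : X ≠ Y := fun h => hxy (hinj h)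
  have hρ' : ρ = X / Y := by rw [hρ, map_div₀]
  by_cases hin : ∃ i, r i = ρ
  · exact Or.inr hin
  push Not at hin
  left
  refine ⟨fun i h => hin i h.symm, ?_⟩
  intro i j w hw
  have hw1 : w ∉ T := fun h => hw (Or.inr h)
  obtain ⟨v, hvS, hvw⟩ := hTv w hw1
  have hs : ∀ i, ρ - r i ≠ 0 := fun i => sub_ne_zero.2 fun h => hin i h.symm
  have e1 : ∀ i, X - r i * Y = (ρ - r i) * Y := fun i => by rw [hρ', sub_mul, div_mul_cancel₀ _ hY0]
  obtain ⟨hPr, h, hh⟩ := hC v hvS
  have hDL : algebraMap K L α * algebraMap K L δ - algebraMap K L β * algebraMap K L γ =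
      algebraMap K L (α * δ - β * γ) := by
    rw [map_sub, map_mul, map_mul]
  have hDL0 : algebraMap K L α * algebraMap K L δ - algebraMap K L β * algebraMap K L γ ≠ 0 := by
    rw [hDL, Ne, map_eq_zero]
    exact hD
  obtain ⟨k, hk⟩ := hLOC L _ (w.valuation L) d (algebraMap K L α) (algebraMap K L β)
    (algebraMap K L γ) (algebraMap K L δ) X Y (r i) (r j) (by omega)
    (val_nat w fun h => hw (Or.inl h)) ⟨ζ, hζ⟩ hDL0 (prim_map hvw hPr)
    (map_perM (algebraMap K L) hx) (map_perM (algebraMap K L) hy) hXY hX0 hY0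
    (hroot i) (hne1 i) (hroot j) (hne1 j) (by rw [e1]; exact mul_ne_zero (hs i) hY0)
    (by rw [e1]; exact mul_ne_zero (hs j) hY0)
  rw [e1, e1, mul_div_mul_right _ _ hY0, hDL] at hk
  have hvD0 : v.valuation K (α * δ - β * γ) ≠ 0 := (Valuation.ne_zero_iff _).2 hD
  have hh0 : h ≠ 0 := by
    intro h0
    rw [h0, map_zero, zero_pow hl.ne'] at hh
    exact hvD0 hh
  have h5 : w.valuation L (algebraMap K L (α * δ - β * γ)) =
      w.valuation L (algebraMap K L h) ^ l := by
    rw [← map_pow, ← map_pow]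
    rw [← map_pow] at hh
    exact (val_eq_iff hvw hD (pow_ne_zero _ hh0)).2 hh
  refine ⟨algebraMap K L h ^ k, zpow_ne_zero _ (by rw [Ne, map_eq_zero]; exact hh0), ?_⟩
  rw [hk, h5, map_zpow₀, ← zpow_natCast, ← zpow_natCast, ← zpow_mul, ← zpow_mul, mul_comm]

end Pool.Agent.W2helper15.BT
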