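import Pool.Agent.W2helper83.BT.Defs4
import Pool.Agent.W2helper92.BT2.Loc

/-!
# Project BT, fourth part, piece TAILB (helper83): the tails
-/

set_option autoImplicit false

namespace Pool.Agent.W2helper15.BT

open IsDedekindDomain NumberField Polynomial
open Pool.Agent.W2helper83.BT
open Pool.Agent.W2helper92.BT2 (val_diff val_prod val_root step one_of_pow)

/-- the places where a nonzero element is not a unit are finitely many -/
theorem fin_nonunit {L : Type} [Field L] [NumberField L] {g : L} (hg : g ≠ 0) :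
    {v : HeightOneSpectrum (𝓞 L) | v.valuation L g ≠ 1}.Finite := by
  have h1 := HeightOneSpectrum.Support.finite (𝓞 L) (K := L) g
  have h2 := HeightOneSpectrum.Support.finite (𝓞 L) (K := L) g⁻¹
  refine (h1.union h2).subset ?_
  intro v hv
  rcases lt_or_gt_of_ne hv with h | h
  · right
    show 1 < v.valuation L g⁻¹
    rw [map_inv₀]
    refine (one_lt_inv₀ ?_).2 h
    exact zero_lt_iff.2 ((Valuation.ne_zero_iff _).2 hg)
  · left
    exact h

section loc

variable {L Γ : Type} [Field L] [LinearOrderedCommGroupWithZero Γ] (w : Valuation L Γ)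

/-- the values of the factors of `X ^ d - 1`, if `1 ≤ w (X ^ d - 1)` -/
theorem loc_big {d : ℕ} (hd : 2 ≤ d) {z : L} (hz : IsPrimitiveRoot z d)
    {X : L} (hX : 1 ≤ w (X ^ d - 1)) : ∃ M : Γ, M ≠ 0 ∧ ∀ η : L, η ^ d = 1 → w (X - η) = M := by
  classical
  have hd0 : 0 < d := by omega
  have hmem : ∀ η : L, η ∈ nthRootsFinset d (1 : L) ↔ η ^ d = 1 := fun η =>
    mem_nthRootsFinset hd0 1
  rcases lt_or_ge 1 (w X) with h | h
  · refine ⟨w X, (zero_lt_one.trans h).ne', fun η hη => ?_⟩
    rw [sub_eq_add_neg, w.map_add_eq_of_lt_left]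
    rw [Valuation.map_neg, val_root w hd0.ne' hη]
    exact h
  · refine ⟨1, one_ne_zero, ?_⟩
    have hp := val_prod w hd0 hz X 1
    rw [one_pow] at hp
    simp only [mul_one] at hp
    have hle : ∀ η ∈ nthRootsFinset d (1 : L), w (X - η) ≤ 1 := by
      intro η hη
      refine (w.map_sub _ _).trans (max_le h ?_)
      rw [val_root w hd0.ne' ((hmem η).1 hη)]
    have h1 : ∏ η ∈ nthRootsFinset d (1 : L), w (X - η) = 1 :=
      le_antisymm (Finset.prod_le_one' hle) (by rw [← hp]; exact hX)
    intro η hη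
    exact (Finset.prod_eq_one_iff_of_le_one' hle).1 h1 η ((hmem η).2 hη)

/-- the values of the factors of `X ^ d - 1`, if `w (X ^ d - 1) < 1` -/
theorem loc_small {d : ℕ} (hd : 2 ≤ d) (hwd : w (d : L) = 1) {z : L} (hz : IsPrimitiveRoot z d)
    {X : L} (hX : w (X ^ d - 1) < 1) (η : L) (hη : η ^ d = 1) :
    w (X - η) = w (X ^ d - 1) ∨ w (X - η) = 1 := by
  classical
  have hd0 : 0 < d := by omega
  have hwX : w X = 1 := by
    refine one_of_pow hd0.ne' ?_
    rw [← map_pow]
    have h1 : X ^ d = 1 + (X ^ d - 1) := by ring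
    rw [h1, w.map_add_eq_of_lt_left (by rwa [map_one]), map_one]
  obtain ⟨η₀, -, h1, h2⟩ := step (w := w) hd hwd hz (x := X) (y := 1) (W := 1)
    (T := w (X ^ d - 1)) (b := 1) one_ne_zero hwX (map_one w) hX le_rfl
    (by rw [one_pow, one_pow, one_mul, mul_one])
  by_cases h : η = η₀
  · left
    rw [h]
    simpa using h1
  · right
    have := h2 η ((mem_nthRootsFinset hd0 1).2 hη) h
    simpa using this

end loc

/-- **TAILB** -/
theorem tailb : TAILBStm := by
  classical
  intro hPl e l n hP hn hnd hl K _ _ S hS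
  obtain ⟨d, hd⟩ : ∃ d : ℕ, d = e.natAbs := ⟨_, rfl⟩
  have hed : e = d ∨ e = -d := by omega
  have hd2 : 2 ≤ d := by omega
  have hd0 : 0 < d := by omega
  have he0 : e ≠ 0 := by omega
  have : NeZero d := ⟨by omega⟩
  let L := CyclotomicField d K
  have : NumberField L := inferInstance
  have hζ := IsCyclotomicExtension.zeta_spec d K L
  obtain ⟨ζ, hζe⟩ : ∃ ζ : L, ζ = IsCyclotomicExtension.zeta d K L := ⟨_, rfl⟩
  rw [← hζe] at hζ
  obtain ⟨T, hT, hPT⟩ := hPl K L S hS
  have hφ : Function.Injective (algebraMap K L) := (algebraMap K L).injective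
  have hdL : (d : L) ≠ 0 := Nat.cast_ne_zero.2 hd0.ne'
  let SL : Set (HeightOneSpectrum (𝓞 L)) := {v | v.valuation L (d : L) ≠ 1} ∪ T
  have hSL : SL.Finite := (fin_nonunit hdL).union hT
  let r : Fin n → L := fun i => ζ ^ (i : ℕ)
  have hr : Function.Injective r := by
    intro i j h
    exact Fin.ext (hζ.pow_inj (by omega) (by omega) h)
  have hroot : ∀ i, r i ^ d = 1 := by
    intro i
    show (ζ ^ (i : ℕ)) ^ d = 1
    rw [← pow_mul, mul_comm, pow_mul, hζ.pow_eq_one, one_pow]
  have hfin := (hP L SL hSL r hr).preimage (f := algebraMap K L) hφ.injOn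
  -- the roots of unity
  let Z : Set K := {η : K | η ^ d = 1 ∧ η ≠ 1}
  have hZ : Z.Finite := by
    refine (nthRootsFinset d (1 : K)).finite_toSet.subset fun η hη => ?_
    exact (mem_nthRootsFinset hd0 1).2 hη.1
  let A : Set K := ((fun η : K => 1 - η) '' Z) ∪ ⋃ η ∈ Z,
    (fun U : K => (η - 1) / (U ^ d - 1)) '' (algebraMap K L ⁻¹' {ρ : L | (∀ i, ρ ≠ r i) ∧
      ∀ i j, ∀ v : HeightOneSpectrum (𝓞 L), v ∉ SL →
      ∃ g : L, g ≠ 0 ∧ v.valuation L ((ρ - r i) / (ρ - r j)) = v.valuation L g ^ l})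
  have hA : A.Finite := (hZ.image _).union (hZ.biUnion fun η _ => hfin.image _)
  refine ⟨A, hA, ?_⟩
  intro b c y z x hb hC hy hz hzy hx
  have hy0 : y ≠ 0 := by
    rintro rfl
    rw [zero_zpow _ he0] at hz
    exact hzy (zpow_eq_zero_iff he0 |>.1 hz)
  refine ⟨hy0, ?_⟩
  unfold fa at hy hx
  obtain ⟨α, hα⟩ : ∃ α : K, α = b * y ^ (e - 1) := ⟨_, rfl⟩
  rw [← hα]
  have hα0 : α ≠ 0 := by rw [hα]; exact mul_ne_zero hb (zpow_ne_zero _ hy0)
  obtain ⟨ξ, hξ⟩ : ∃ ξ : K, ξ = z / y := ⟨_, rfl⟩
  have hzξ : z = ξ * y := by rw [hξ]; field_simp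
  have hξe : ξ ^ e = 1 := by
    rw [hξ, div_zpow, hz, div_self (zpow_ne_zero _ hy0)]
  have hξ1 : ξ ≠ 1 := by
    rw [hξ]
    exact fun h => hzy ((div_eq_one_iff_eq hy0).1 h)
  have hξd : ξ ^ d = 1 := by
    rcases hed with h | h
    · rw [h, zpow_natCast] at hξe
      exact hξe
    · rw [h, zpow_neg, zpow_natCast, inv_eq_one] at hξe
      exact hξe
  have hξZ : ξ ∈ Z := ⟨hξd, hξ1⟩
  have hye : y ^ e = y ^ (e - 1) * y := by
    rw [← zpow_add_one₀ hy0]
    congr 1
    ring
  have hbye : b * y ^ e = α * y := by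
    rw [hye, ← mul_assoc, hα]
  have hc : c = y * (1 - α) := by linear_combination hy - hbye
  have hbxe : b * x ^ e = (α + ξ - 1) * y := by
    linear_combination hx - hc + hzξ
  by_cases hx0 : x = 0
  · left
    rw [hx0, zero_zpow _ he0, mul_zero] at hbxe
    rcases mul_eq_zero.1 hbxe.symm with h2 | h2
    · exact ⟨ξ, hξZ, by show 1 - ξ = α; linear_combination -h2⟩
    · exact absurd h2 hy0
  · right
    obtain ⟨u, hu⟩ : ∃ u : K, u = x / y := ⟨_, rfl⟩
    have hu0 : u ≠ 0 := by rw [hu]; exact div_ne_zero hx0 hy0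
    have hue : α * (u ^ e - 1) = ξ - 1 := by
      have h3 : α * y * u ^ e = (α + ξ - 1) * y := by
        rw [← hbxe, ← hbye, hu, div_zpow]
        have := zpow_ne_zero e hy0
        field_simp
      apply mul_right_cancel₀ hy0
      linear_combination h3
    obtain ⟨U, hU⟩ : ∃ U : K, U ^ d = u ^ e := by
      rcases hed with h7 | h7
      · exact ⟨u, by rw [h7, zpow_natCast]⟩
      · exact ⟨u⁻¹, by rw [h7, zpow_neg, zpow_natCast, inv_pow]⟩
    rw [← hU] at hue
    have hξ10 : ξ - 1 ≠ 0 := sub_ne_zero.2 hξ1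
    have hUd : U ^ d - 1 ≠ 0 := by
      intro h
      rw [h, mul_zero] at hue
      exact hξ10 hue.symm
    refine Set.mem_biUnion hξZ ⟨U, ?_, by
      show (ξ - 1) / (U ^ d - 1) = α
      rw [div_eq_iff hUd, hue]⟩
    obtain ⟨X, hX⟩ : ∃ X : L, X = algebraMap K L U := ⟨_, rfl⟩
    rw [Set.mem_preimage, ← hX]
    have hXd : X ^ d - 1 = algebraMap K L (U ^ d - 1) := by
      rw [map_sub, map_pow, map_one, hX]
    have hXd0 : X ^ d - 1 ≠ 0 := by
      rw [hXd]
      exact (_root_.map_ne_zero _).2 hUd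
    refine ⟨fun i h => hXd0 (by rw [h, hroot, sub_self]), ?_⟩
    intro i j v hv
    have hvd : v.valuation L (d : L) = 1 := by
      by_contra h
      exact hv (Or.inl h)
    have hvT : v ∉ T := fun h => hv (Or.inr h)
    have hprod : v.valuation L (algebraMap K L α) * v.valuation L (X ^ d - 1) = 1 := by
      rw [← map_mul, hXd, ← map_mul, hue, map_sub, map_one]
      refine val_diff _ hd0.ne' hvd ?_ (one_pow d) ?_
      · rw [← map_pow, hξd, map_one]
      · intro h
        exact hξ1 (hφ (by rw [h, map_one]))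
    have hvα0 : v.valuation L (algebraMap K L α) ≠ 0 := by
      intro h
      rw [h, zero_mul] at hprod
      exact zero_ne_one hprod
    have hinv : v.valuation L (X ^ d - 1) = (v.valuation L (algebraMap K L α))⁻¹ :=
      eq_inv_of_mul_eq_one_right hprod
    rcases le_or_gt (v.valuation L (algebraMap K L α)) 1 with hle | hgt
    · obtain ⟨M, hM, hM'⟩ := loc_big (v.valuation L) hd2 hζ (X := X)
        (by rw [hinv]; exact (one_le_inv₀ (zero_lt_iff.2 hvα0)).2 hle)
      exact ⟨1, one_ne_zero, by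
        rw [map_div₀, hM' _ (hroot i), hM' _ (hroot j), div_self hM, map_one, one_pow]⟩
    · obtain ⟨v', hv', hvv'⟩ := hPT v hvT
      have hα1 : 1 < v'.valuation K α := by
        rw [← not_le, ← hvv' α, not_le]
        exact hgt
      have hα0' : v'.valuation K α ≠ 0 := (zero_lt_one.trans hα1).ne'
      have hcv : v'.valuation K c = v'.valuation K y * v'.valuation K α := by
        rw [hc, map_mul]
        congr 1
        rw [Valuation.map_sub_eq_of_lt_right]
        rw [map_one]
        exact hα1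
      have hval : v'.valuation K (b * c ^ (e - 1)) = v'.valuation K α ^ e := by
        have h5 : v'.valuation K α = v'.valuation K b * v'.valuation K y ^ (e - 1) := by
          rw [hα, map_mul, map_zpow₀]
        rw [map_mul, map_zpow₀, hcv, mul_zpow, ← mul_assoc, ← h5, ← zpow_one_add₀ hα0']
        congr 1
        ring
      obtain ⟨h, hh⟩ := hC v' hv' α hα1 hval
      have hh0 : h ≠ 0 := by
        rintro rfl
        rw [map_zero, zero_pow hl.ne'] at hh
        exact hα0' hh
      have hφh0 : algebraMap K L h ≠ 0 := (_root_.map_ne_zero _).2 hh0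
      have hkey : v.valuation L (algebraMap K L α) = v.valuation L (algebraMap K L h) ^ l := by
        have hhl : v'.valuation K (h ^ l) ≠ 0 := (Valuation.ne_zero_iff _).2 (pow_ne_zero _ hh0)
        have a1 : v'.valuation K (α / h ^ l) ≤ 1 := by
          rw [map_div₀, map_pow, ← hh, div_self hα0']
        have a2 : v'.valuation K (h ^ l / α) ≤ 1 := by
          rw [map_div₀, map_pow, ← hh, div_self hα0']
        rw [← hvv', map_div₀, map_div₀, div_le_one₀ (zero_lt_iff.2 ((Valuation.ne_zero_iff _).2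
          ((_root_.map_ne_zero _).2 (pow_ne_zero _ hh0))))] at a1
        rw [← hvv', map_div₀, map_div₀, div_le_one₀ (zero_lt_iff.2 hvα0)] at a2
        rw [← map_pow, ← map_pow]
        exact le_antisymm a1 a2
      have hlt : v.valuation L (X ^ d - 1) < 1 := by
        rw [hinv]
        exact (inv_lt_one₀ (zero_lt_iff.2 hvα0)).2 hgt
      have hcase : ∀ i, v.valuation L (X - r i) = (v.valuation L (algebraMap K L h) ^ l)⁻¹ ∨
          v.valuation L (X - r i) = 1 := by
        intro i
        rw [← hkey, ← hinv]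
        exact loc_small (v.valuation L) hd2 hvd hζ hlt _ (hroot i)
      have hhv : v.valuation L (algebraMap K L h) ^ l ≠ 0 := by rw [← hkey]; exact hvα0
      rcases hcase i with hi | hi <;> rcases hcase j with hj | hj
      · exact ⟨1, one_ne_zero, by
          rw [map_div₀, hi, hj, div_self (inv_ne_zero hhv), map_one, one_pow]⟩
      · exact ⟨(algebraMap K L h)⁻¹, inv_ne_zero hφh0, by
          rw [map_div₀, hi, hj, div_one, map_inv₀, inv_pow]⟩
      · exact ⟨algebraMap K L h, hφh0, by
          rw [map_div₀, hi, hj, one_div, inv_inv]⟩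
      · exact ⟨1, one_ne_zero, by
          rw [map_div₀, hi, hj, div_one, map_one, one_pow]⟩

end Pool.Agent.W2helper15.BT
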